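import Pool.Agent.Helper8.UN.Stmts

set_option autoImplicit false

open Finset

namespace Pool.Agent.Helper8.UN

/-- `e^1.1 < 3.03` -/
theorem wlc_exp : Real.exp (11 / 10) ≤ 303 / 100 := by
  have h1 : Real.exp 1 < 2.7182818286 := Real.exp_one_lt_d9
  have h2 : Real.exp (1 / 10) ≤ 10 / 9 := by
    have h3 : (9 : ℝ) / 10 ≤ Real.exp (-(1 / 10)) := by
      have := Real.add_one_le_exp (-(1 / 10 : ℝ))
      linarith
    rw [Real.exp_neg] at h3
    have h4 : 0 < Real.exp (1 / 10) := Real.exp_pos _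
    rw [le_inv_comm₀ (by norm_num) h4] at h3
    norm_num at h3 ⊢
    exact h3
  have h3 : Real.exp (11 / 10) = Real.exp 1 * Real.exp (1 / 10) := by
    rw [← Real.exp_add]; norm_num
  rw [h3]
  have h4 : 0 < Real.exp 1 := Real.exp_pos _
  have h5 : 0 < Real.exp (1 / 10) := Real.exp_pos _
  nlinarith

/-- Bonferroni inequality divided by `p m` -/
theorem wlc_bon (p a : ℕ → ℝ)
    (hB : ∀ m I : ℕ, |a m - ∑ i ∈ Finset.range I, (-1) ^ i * ((m.choose i : ℝ) * p (m - i))| ≤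
      (m.choose I : ℝ) * p (m - I)) (m I : ℕ) (hp : 0 < p m) :
    |a m / p m - ∑ i ∈ Finset.range I, (-1) ^ i * ff p i m| ≤ ff p I m := by
  have h := hB m I
  have h1 : a m / p m - ∑ i ∈ Finset.range I, (-1) ^ i * ff p i m =
      (a m - ∑ i ∈ Finset.range I, (-1) ^ i * ((m.choose i : ℝ) * p (m - i))) / p m := by
    rw [sub_div, Finset.sum_div]
    congr 1
    apply Finset.sum_congr rfl
    intro i _
    unfold ff
    ring
  rw [h1, abs_div, abs_of_pos hp]
  unfold ff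
  exact div_le_div_of_nonneg_right h hp.le

/-- the square of the mean -/
theorem wlc_alg (s t u x P Q R : ℝ) (hs : 21 / 100 ≤ s) (ht : 0 ≤ t) (hu : 0 ≤ u)
    (hx : 0 ≤ x) (hx1 : x ≤ 1)
    (h2 : t + u - 2 * s ≤ 29 / 1000 * x) (hP : 0 < P) (hR : 0 < R)
    (hW : (1 + 15 / 100 * x) * (P * R) ≤ Q ^ 2) :
    (u * P) * (t * R) ≤ (s * Q) ^ 2 := by
  have h3 : t * u ≤ (s + 145 / 10000 * x) ^ 2 := by
    have h4 : t * u ≤ ((t + u) / 2) ^ 2 := by nlinarith [sq_nonneg (t - u)]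
    have h5 : (t + u) / 2 ≤ s + 145 / 10000 * x := by linarith
    have h6 : 0 ≤ (t + u) / 2 := by linarith
    nlinarith
  have h4 : (s + 145 / 10000 * x) ^ 2 ≤ s ^ 2 * (1 + 15 / 100 * x) := by
    have h5 : 145 / 10000 * x ≤ 7 / 100 * x * s := by nlinarith
    have h6 : (s + 145 / 10000 * x) ^ 2 ≤ (s + 7 / 100 * x * s) ^ 2 := by
      have : 0 ≤ s + 145 / 10000 * x := by positivity
      nlinarith
    have h7 : (s + 7 / 100 * x * s) ^ 2 = s ^ 2 * (1 + 7 / 100 * x) ^ 2 := by ring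
    have h8 : (1 + 7 / 100 * x) ^ 2 ≤ 1 + 15 / 100 * x := by nlinarith
    have h9 : 0 ≤ s ^ 2 := sq_nonneg s
    calc (s + 145 / 10000 * x) ^ 2 ≤ s ^ 2 * (1 + 7 / 100 * x) ^ 2 := by rw [← h7]; exact h6
      _ ≤ s ^ 2 * (1 + 15 / 100 * x) := mul_le_mul_of_nonneg_left h8 h9
  have h5 : 0 ≤ P * R := by positivity
  calc (u * P) * (t * R) = (t * u) * (P * R) := by ring
    _ ≤ (s ^ 2 * (1 + 15 / 100 * x)) * (P * R) :=
        mul_le_mul_of_nonneg_right (h3.trans h4) h5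
    _ = s ^ 2 * ((1 + 15 / 100 * x) * (P * R)) := by ring
    _ ≤ s ^ 2 * Q ^ 2 := mul_le_mul_of_nonneg_left hW (sq_nonneg s)
    _ = (s * Q) ^ 2 := by ring

theorem wlc_large : ∃ n₀ : ℕ, ∀ n ≥ n₀, 10 ≤ n ∧ 0 < Real.log n ∧
    Real.log n ^ 2 ≤ 4 / 10 * (n : ℝ) := by
  have h := (Real.isLittleO_pow_log_id_atTop (n := 2)).bound
    (by norm_num : (0 : ℝ) < 4 / 10)
  have h2 := tendsto_natCast_atTop_atTop (R := ℝ) |>.eventually h
  obtain ⟨N, hN⟩ := Filter.eventually_atTop.1 h2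
  refine ⟨max N 10, fun n hn => ?_⟩
  have h3 := hN n (le_trans (le_max_left _ _) hn)
  have h4 : 10 ≤ n := le_trans (le_max_right _ _) hn
  have h5 : (10 : ℝ) ≤ n := by exact_mod_cast h4
  refine ⟨h4, Real.log_pos (by linarith), ?_⟩
  simp only [id, Real.norm_eq_abs, abs_pow, sq_abs] at h3
  rwa [abs_of_nonneg (by linarith : (0 : ℝ) ≤ n)] at h3

theorem st_WLC (h2 : ST_WL2) (h3 : ST_WL3) : ST_WLC := by
  obtain ⟨n2, h2⟩ := h2
  obtain ⟨n3, h3⟩ := h3
  obtain ⟨n4, h4⟩ := wlc_large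
  refine ⟨max n2 (max n3 n4), fun n hn p a hw hB m hm1 hm2 hl => ?_⟩
  have hn2 : n2 ≤ n := le_trans (le_max_left _ _) hn
  have hn3 : n3 ≤ n := le_trans (le_trans (le_max_left _ _) (le_max_right _ _)) hn
  have hn4 : n4 ≤ n := le_trans (le_trans (le_max_right _ _) (le_max_right _ _)) hn
  obtain ⟨hn10, hL, hL2⟩ := h4 n hn4
  have hn0 : (10 : ℝ) ≤ n := by exact_mod_cast hn10
  set L := Real.log n with hLdef
  have hnL : 0 < (n : ℝ) / L := by positivity
  have hm0 : (0 : ℝ) < m := by linarith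
  have hmN : 0 < m := by exact_mod_cast hm0
  have hm1' : (1 : ℝ) ≤ m := by exact_mod_cast hmN
  have hW := hw m (by linarith) (by linarith)
  obtain ⟨hpa, hpb, hpc, hW1, -⟩ := hW
  obtain ⟨h3a, h3b, h3c⟩ := h3 n hn3 p hw m hm1 hm2 hl
  have h2' := h2 n hn2 p hw m
  set x : ℝ := n / (m : ℝ) ^ 2 with hx
  have hx0 : 0 < x := by positivity
  have hx1 : x ≤ 1 := by
    rw [hx, div_le_one (by positivity)]
    have h5 : (68 / 100 * ((n : ℝ) / L)) ^ 2 ≤ (m : ℝ) ^ 2 := by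
      apply pow_le_pow_left₀ (by positivity) hm1
    have h6 : (n : ℝ) ≤ (68 / 100 * ((n : ℝ) / L)) ^ 2 := by
      have h7 : (68 / 100 * ((n : ℝ) / L)) ^ 2 = (68 / 100) ^ 2 * (n : ℝ) ^ 2 / L ^ 2 := by ring
      rw [h7, le_div_iff₀ (by positivity)]
      nlinarith
    linarith
  -- positivity of the three terms
  have hpos : ∀ m' : ℕ, m - 1 ≤ m' → m' ≤ m + 1 → 0 < p m' → 21 / 100 ≤ a m' / p m' := by
    intro m' h5 h6 h7
    have h8 := wlc_bon p a hB m' 4 h7
    have h9 := h3b m' h5 h6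
    simp only [Finset.sum_range_succ, Finset.sum_range_zero] at h8
    have h10 : ff p 0 m' = 1 := by
      unfold ff
      rw [Nat.choose_zero_right, Nat.sub_zero, Nat.cast_one, one_mul, div_self h7.ne']
    rw [h10] at h8
    have h11 := (abs_le.1 h8).1
    norm_num at h11
    linarith
  have sa := hpos (m - 1) le_rfl (by omega) hpa
  have sb := hpos m (by omega) (by omega) hpb
  have sc := hpos (m + 1) (by omega) le_rfl hpc
  set I := ⌊4 * L⌋₊ with hI
  have ba := wlc_bon p a hB (m - 1) I hpa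
  have bb := wlc_bon p a hB m I hpb
  have bc := wlc_bon p a hB (m + 1) I hpc
  have ca := h3c (m - 1) le_rfl (by omega)
  have cb := h3c m (by omega) (by omega)
  have cc := h3c (m + 1) (by omega) le_rfl
  have hIle : ∀ i ∈ Finset.range I, (i : ℝ) ≤ 4 * L := by
    intro i hi
    have h5 : (i : ℝ) ≤ I := by exact_mod_cast (Finset.mem_range.1 hi).le
    exact h5.trans (Nat.floor_le (by positivity))
  have hsum : (∑ i ∈ Finset.range I, (-1 : ℝ) ^ i * ff p i (m + 1)) +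
      (∑ i ∈ Finset.range I, (-1 : ℝ) ^ i * ff p i (m - 1)) -
      2 * (∑ i ∈ Finset.range I, (-1 : ℝ) ^ i * ff p i m) ≤ 9 / 1000 * x * (303 / 100) := by
    have e1 : (∑ i ∈ Finset.range I, (-1 : ℝ) ^ i * ff p i (m + 1)) +
      (∑ i ∈ Finset.range I, (-1 : ℝ) ^ i * ff p i (m - 1)) -
      2 * (∑ i ∈ Finset.range I, (-1 : ℝ) ^ i * ff p i m) =
      ∑ i ∈ Finset.range I, (-1 : ℝ) ^ i * (ff p i (m + 1) + ff p i (m - 1) - 2 * ff p i m) := by
      rw [Finset.mul_sum, ← Finset.sum_add_distrib, ← Finset.sum_sub_distrib]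
      apply Finset.sum_congr rfl
      intro i _
      ring
    rw [e1]
    have e2 : ∀ i ∈ Finset.range I,
        (-1 : ℝ) ^ i * (ff p i (m + 1) + ff p i (m - 1) - 2 * ff p i m) ≤
        9 / 1000 * x * ((11 / 10) ^ i / (i.factorial : ℝ)) := by
      intro i hi
      have h5 := (h2' i hm1 hm2 (hIle i hi)).2
      have h6 := (h3a i m (hIle i hi) (by omega) (by omega)).2
      have h7 : (-1 : ℝ) ^ i * (ff p i (m + 1) + ff p i (m - 1) - 2 * ff p i m) ≤
          |ff p i (m + 1) + ff p i (m - 1) - 2 * ff p i m| := by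
        refine le_trans (le_abs_self _) ?_
        rw [abs_mul, abs_pow, abs_neg, abs_one, one_pow, one_mul]
      refine h7.trans (h5.trans ?_)
      exact mul_le_mul_of_nonneg_left h6 (by positivity)
    refine (Finset.sum_le_sum e2).trans ?_
    rw [← Finset.mul_sum]
    apply mul_le_mul_of_nonneg_left _ (by positivity)
    exact (Real.sum_le_exp_of_nonneg (by norm_num) I).trans wlc_exp
  have h5 : a (m + 1) / p (m + 1) + a (m - 1) / p (m - 1) - 2 * (a m / p m) ≤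
      29 / 1000 * x := by
    have ea := (abs_le.1 ba).2
    have eb := (abs_le.1 bb).1
    have ec := (abs_le.1 bc).2
    nlinarith
  have hW2 : (1 + 15 / 100 * x) * (p (m - 1) * p (m + 1)) ≤ p m ^ 2 := by
    refine le_trans (mul_le_mul_of_nonneg_right ?_ (by positivity)) hW1
    have h6 : 15 / 100 * x ≤ 999 / 1000 * ((n : ℝ) / ((m : ℝ) * (m + 1))) := by
      rw [hx, mul_div_assoc', mul_div_assoc', div_le_div_iff₀ (by positivity) (by positivity)]
      have h7 : (m : ℝ) + 1 ≤ 2 * m := by linarith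
      have h8 : 15 / 100 * (n : ℝ) * ((m : ℝ) * (m + 1)) ≤ 15 / 100 * (n : ℝ) * (m * (2 * m)) := by
        apply mul_le_mul_of_nonneg_left _ (by positivity)
        exact mul_le_mul_of_nonneg_left h7 hm0.le
      have h9 : 0 ≤ (n : ℝ) * (m : ℝ) ^ 2 := by positivity
      nlinarith
    linarith
  have h6 := wlc_alg (a m / p m) (a (m + 1) / p (m + 1)) (a (m - 1) / p (m - 1)) x
    (p (m - 1)) (p m) (p (m + 1)) sb (by linarith) (by linarith) hx0.le hx1 h5 hpa hpc hW2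
  rw [div_mul_cancel₀ _ hpa.ne', div_mul_cancel₀ _ hpb.ne', div_mul_cancel₀ _ hpc.ne'] at h6
  constructor
  · have h7 : a m = a m / p m * p m := (div_mul_cancel₀ _ hpb.ne').symm
    rw [h7]
    have : 0 < a m / p m := by linarith
    positivity
  · have h7 : 0 ≤ a m ^ 2 := sq_nonneg _
    nlinarith

end Pool.Agent.Helper8.UN
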