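import Pool.Agent.Helper8.UN.Stmts

set_option autoImplicit false

open Finset

namespace Pool.Agent.Helper8.UN

open scoped Classical in
theorem sym_mem {n : ℕ} (E : Finset (Finset (Fin n))) (W : Finset (Fin n)) (k : ℕ)
    (f : Fin n → ℕ) : f ∈ CC E W k ↔
      ((∀ v ∈ W, 1 ≤ f v ∧ f v ≤ k) ∧ (∀ v, v ∉ W → f v = 0)) ∧ Prp E W f := by
  unfold CC
  rw [Finset.mem_filter, Fintype.mem_piFinset]
  constructor
  · rintro ⟨h, hp⟩
    refine ⟨⟨fun v hv => ?_, fun v hv => ?_⟩, hp⟩
    · have := h v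
      rw [if_pos hv, Finset.mem_Icc] at this
      exact this
    · have := h v
      rw [if_neg hv, Finset.mem_singleton] at this
      exact this
  · rintro ⟨⟨h1, h2⟩, hp⟩
    refine ⟨fun v => ?_, hp⟩
    by_cases hv : v ∈ W
    · rw [if_pos hv, Finset.mem_Icc]; exact h1 v hv
    · rw [if_neg hv, Finset.mem_singleton]; exact h2 v hv

theorem sym_swp (i j K a : ℕ) (hi : 1 ≤ i ∧ i ≤ K) (hj : 1 ≤ j ∧ j ≤ K) (ha : 1 ≤ a ∧ a ≤ K) :
    1 ≤ Equiv.swap i j a ∧ Equiv.swap i j a ≤ K := by
  rw [Equiv.swap_apply_def]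
  split_ifs
  · exact hj
  · exact hi
  · exact ha

theorem sym_cmp {n : ℕ} (E : Finset (Finset (Fin n))) (W : Finset (Fin n)) (i j K : ℕ)
    (hi : 1 ≤ i ∧ i ≤ K) (hj : 1 ≤ j ∧ j ≤ K) (f : Fin n → ℕ) (hf : f ∈ CC E W K) :
    (fun v => Equiv.swap i j (f v)) ∈ CC E W K := by
  rw [sym_mem] at hf ⊢
  obtain ⟨⟨h1, h2⟩, h3⟩ := hf
  refine ⟨⟨fun v hv => sym_swp i j K _ hi hj (h1 v hv), fun v hv => ?_⟩, ?_⟩
  · show Equiv.swap i j (f v) = 0
    rw [h2 v hv]
    apply Equiv.swap_apply_of_ne_of_ne <;> omega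
  · intro e he hW
    obtain ⟨u, hu, w, hw, hne⟩ := h3 e he hW
    exact ⟨u, hu, w, hw, fun h => hne ((Equiv.swap i j).injective h)⟩

open scoped Classical in
theorem sym_eq {n : ℕ} (E : Finset (Finset (Fin n))) (W : Finset (Fin n)) (i j K : ℕ)
    (hi : 1 ≤ i ∧ i ≤ K) (hj : 1 ≤ j ∧ j ≤ K) :
    ∑ f ∈ CC E W K, (W.filter (fun v => f v = i)).card =
      ∑ f ∈ CC E W K, (W.filter (fun v => f v = j)).card := by
  apply Finset.sum_nbij' (fun f => fun v => Equiv.swap i j (f v))
    (fun f => fun v => Equiv.swap i j (f v))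
  · intro f hf; exact sym_cmp E W i j K hi hj f hf
  · intro f hf; exact sym_cmp E W i j K hi hj f hf
  · intro f _; funext v; simp
  · intro f _; funext v; simp
  · intro f _
    congr 1
    ext v
    simp only [Finset.mem_filter]
    have : f v = i ↔ Equiv.swap i j (f v) = j := by
      constructor
      · intro h; rw [h]; exact Equiv.swap_apply_left i j
      · intro h
        have h2 := congrArg (Equiv.swap i j) h
        rwa [Equiv.swap_apply_self, Equiv.swap_apply_right] at h2
    rw [this]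

open scoped Classical in
theorem sym_bij {n : ℕ} (E : Finset (Finset (Fin n))) (W : Finset (Fin n)) (k : ℕ)
    (B : Finset (Fin n)) (hB : B ⊆ W) (hA : Pool.Agent.Helper89.UB.Al E B) :
    ((CC E W (k + 1)).filter (fun f => W.filter (fun v => f v = k + 1) = B)).card =
      PP E (W \ B) k := by
  unfold PP
  apply Finset.card_nbij' (fun f => fun v => if v ∈ B then 0 else f v)
    (fun g => fun v => if v ∈ B then k + 1 else g v)
  · intro f hf
    rw [Finset.mem_coe, Finset.mem_filter, sym_mem] at hf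
    obtain ⟨⟨⟨h1, h2⟩, h3⟩, h4⟩ := hf
    rw [Finset.mem_coe, sym_mem]
    refine ⟨⟨fun v hv => ?_, fun v hv => ?_⟩, ?_⟩
    · rw [Finset.mem_sdiff] at hv
      simp only [if_neg hv.2]
      have h5 := h1 v hv.1
      have h6 : f v ≠ k + 1 := by
        intro h
        apply hv.2
        rw [← h4, Finset.mem_filter]
        exact ⟨hv.1, h⟩
      omega
    · by_cases hvB : v ∈ B
      · simp [hvB]
      · simp only [if_neg hvB]
        apply h2
        intro hW
        exact hv (Finset.mem_sdiff.2 ⟨hW, hvB⟩)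
    · intro e he hW
      obtain ⟨u, hu, w, hw, hne⟩ := h3 e he (hW.trans Finset.sdiff_subset)
      refine ⟨u, hu, w, hw, ?_⟩
      have hu2 := (Finset.mem_sdiff.1 (hW hu)).2
      have hw2 := (Finset.mem_sdiff.1 (hW hw)).2
      simp only [if_neg hu2, if_neg hw2]
      exact hne
  · intro g hg
    rw [Finset.mem_coe, sym_mem] at hg
    obtain ⟨⟨h1, h2⟩, h3⟩ := hg
    rw [Finset.mem_coe, Finset.mem_filter, sym_mem]
    refine ⟨⟨⟨fun v hv => ?_, fun v hv => ?_⟩, ?_⟩, ?_⟩
    · by_cases hvB : v ∈ B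
      · simp [hvB]
      · simp only [if_neg hvB]
        have := h1 v (Finset.mem_sdiff.2 ⟨hv, hvB⟩)
        omega
    · have hvB : v ∉ B := fun h => hv (hB h)
      simp only [if_neg hvB]
      apply h2
      intro h
      exact hv (Finset.mem_sdiff.1 h).1
    · intro e he hW
      by_cases hs : e ⊆ W \ B
      · obtain ⟨u, hu, w, hw, hne⟩ := h3 e he hs
        refine ⟨u, hu, w, hw, ?_⟩
        have hu2 := (Finset.mem_sdiff.1 (hs hu)).2
        have hw2 := (Finset.mem_sdiff.1 (hs hw)).2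
        simp only [if_neg hu2, if_neg hw2]
        exact hne
      · obtain ⟨u, hu, hu2⟩ := Finset.not_subset.1 hs
        have huB : u ∈ B := by
          by_contra h
          exact hu2 (Finset.mem_sdiff.2 ⟨hW hu, h⟩)
        obtain ⟨w, hw, hw2⟩ := Finset.not_subset.1 (hA e he)
        refine ⟨u, hu, w, hw, ?_⟩
        simp only [if_pos huB, if_neg hw2]
        have := (h1 w (Finset.mem_sdiff.2 ⟨hW hw, hw2⟩)).2
        omega
    · ext v
      rw [Finset.mem_filter]
      constructor
      · rintro ⟨hv, hv2⟩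
        by_contra hvB
        simp only [if_neg hvB] at hv2
        have := (h1 v (Finset.mem_sdiff.2 ⟨hv, hvB⟩)).2
        omega
      · intro hv
        exact ⟨hB hv, by simp [hv]⟩
  · intro f hf
    rw [Finset.mem_coe, Finset.mem_filter] at hf
    funext v
    by_cases hvB : v ∈ B
    · simp only [if_pos hvB]
      have : v ∈ W.filter (fun v => f v = k + 1) := by rw [hf.2]; exact hvB
      exact (Finset.mem_filter.1 this).2.symm
    · simp only [if_neg hvB]
  · intro g hg
    rw [Finset.mem_coe, sym_mem] at hg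
    funext v
    by_cases hvB : v ∈ B
    · simp only [if_pos hvB]
      exact (hg.1.2 v (fun h => (Finset.mem_sdiff.1 h).2 hvB)).symm
    · simp only [if_neg hvB]

open scoped Classical in
theorem sym_sum {n : ℕ} (E : Finset (Finset (Fin n))) (W : Finset (Fin n)) (k : ℕ) :
    ∑ B ∈ W.powerset.filter (fun B => Pool.Agent.Helper89.UB.Al E B), B.card * PP E (W \ B) k =
      ∑ f ∈ CC E W (k + 1), (W.filter (fun v => f v = k + 1)).card := by
  have hm : ∀ f ∈ CC E W (k + 1), W.filter (fun v => f v = k + 1) ∈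
      W.powerset.filter (fun B => Pool.Agent.Helper89.UB.Al E B) := by
    intro f hf
    rw [sym_mem] at hf
    rw [Finset.mem_filter, Finset.mem_powerset]
    refine ⟨Finset.filter_subset _ _, fun e he hs => ?_⟩
    obtain ⟨u, hu, w, hw, hne⟩ := hf.2 e he (hs.trans (Finset.filter_subset _ _))
    apply hne
    rw [(Finset.mem_filter.1 (hs hu)).2, (Finset.mem_filter.1 (hs hw)).2]
  rw [← Finset.sum_fiberwise_of_maps_to hm]
  apply Finset.sum_congr rfl
  intro B hB
  rw [Finset.mem_filter, Finset.mem_powerset] at hB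
  rw [← sym_bij E W k B hB.1 hB.2, mul_comm, ← smul_eq_mul, ← Finset.sum_const]
  apply Finset.sum_congr rfl
  intro f hf
  rw [(Finset.mem_filter.1 hf).2]

theorem st_SYM (_h : ST_F2) : ST_SYM := by
  classical
  intro n k E W _
  have h3 : ∀ i ∈ Finset.Icc 1 (k + 1),
      ∑ f ∈ CC E W (k + 1), (W.filter (fun v => f v = i)).card =
      ∑ f ∈ CC E W (k + 1), (W.filter (fun v => f v = k + 1)).card := by
    intro i hi
    rw [Finset.mem_Icc] at hi
    exact sym_eq E W i (k + 1) (k + 1) hi ⟨by omega, le_rfl⟩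
  have h4 : ∑ i ∈ Finset.Icc 1 (k + 1),
      ∑ f ∈ CC E W (k + 1), (W.filter (fun v => f v = i)).card =
      (k + 1) * ∑ f ∈ CC E W (k + 1), (W.filter (fun v => f v = k + 1)).card := by
    rw [Finset.sum_congr rfl h3, Finset.sum_const, Nat.card_Icc, smul_eq_mul]
    congr 1
  have h5 : ∑ i ∈ Finset.Icc 1 (k + 1),
      ∑ f ∈ CC E W (k + 1), (W.filter (fun v => f v = i)).card = W.card * PP E W (k + 1) := by
    rw [Finset.sum_comm]
    unfold PP
    rw [mul_comm, ← smul_eq_mul, ← Finset.sum_const]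
    apply Finset.sum_congr rfl
    intro f hf
    rw [sym_mem] at hf
    have hm : ∀ v ∈ W, f v ∈ Finset.Icc 1 (k + 1) := fun v hv => by
      rw [Finset.mem_Icc]; exact hf.1.1 v hv
    exact (Finset.card_eq_sum_card_fiberwise hm).symm
  have h6 := sym_sum E W k
  rw [← h5, h4]
  congr 1

end Pool.Agent.Helper8.UN
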